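import Mathlib
import Pool.Agent.H16.Mono

set_option autoImplicit false

namespace Pool.Agent.Results.MP_bd2bbd_co.No

open H16.PSys

theorem result : ∃ P : Fin 7 → Fin 7 → List (Fin 7), PathSystem ⊤ P ∧ Concat P ∧ DiamTwo P ∧
    MonotoneSys P ∧ ¬ ∃ w : Sym2 (Fin 7) → ℝ,
      (∀ e ∈ (⊤ : SimpleGraph (Fin 7)).edgeSet, 0 < w e) ∧ Induces ⊤ w P :=
  H16.PSys.main2

end Pool.Agent.Results.MP_bd2bbd_co.No
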